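import Mathlib
import Pool.Agent.H6.W.Final

/-!
# The prime number theorem for Wilson primes of `F_q[t]`, `q` a power of three
-/

set_option autoImplicit false

namespace Pool.Agent.Results.MP_de5eaa_nt.WilsonPrimesCharThree

open Polynomial Filter Topology

/-- `P` is a Wilson prime of `K[t]`: it is monic and irreducible, and `P ^ 2` divides
`1 + ∏ a`, the product over all nonzero polynomials `a` with `deg a < deg P`. -/
def IsWilson {K : Type} [Field K] (P : K[X]) : Prop :=
  P.Monic ∧ Irreducible P ∧ P ^ 2 ∣ 1 + ∏ᶠ a ∈ {a : K[X] | a ≠ 0 ∧ a.degree < P.degree}, a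

/-- The number of the Wilson primes of degree `n`. -/
noncomputable def W (K : Type) [Field K] (n : ℕ) : ℕ :=
  {P : K[X] | IsWilson P ∧ P.natDegree = n}.ncard

theorem W_eq (K : Type) [Field K] [Fintype K] (n : ℕ) :
    W K n = Pool.Agent.H6.W.Wn K n := by
  classical
  unfold W Pool.Agent.H6.W.Wn
  rw [← Set.ncard_coe_finset]
  congr 1
  ext P
  have key : P.Monic → P.natDegree = n →
      ∏ᶠ a ∈ {a : K[X] | a ≠ 0 ∧ a.degree < P.degree}, a =
        ∏ a ∈ (Pool.Agent.H290.CT.V K n).filter (fun a => a ≠ 0), a := by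
    intro hm hd
    have hs : {a : K[X] | a ≠ 0 ∧ a.degree < P.degree} =
        (((Pool.Agent.H290.CT.V K n).filter (fun a => a ≠ 0) : Finset K[X]) : Set K[X]) := by
      ext a
      rw [Finset.mem_coe, Finset.mem_filter, Pool.Agent.H290.CT.mem_V]
      change (a ≠ 0 ∧ a.degree < P.degree) ↔ _
      rw [degree_eq_natDegree hm.ne_zero, hd]
      exact and_comm
    rw [hs, finprod_mem_coe_finset]
  rw [Finset.mem_coe, Finset.mem_filter, Pool.Agent.H694.Typ.mem_Mn]
  change (IsWilson P ∧ P.natDegree = n) ↔ _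
  unfold IsWilson
  constructor
  · rintro ⟨⟨hm, hi, hd⟩, hn'⟩
    rw [key hm hn'] at hd
    exact ⟨⟨hm, hn'⟩, hi, hd⟩
  · rintro ⟨⟨hm, hn'⟩, hi, hd⟩
    rw [← key hm hn'] at hd
    exact ⟨⟨hm, hi, hd⟩, hn'⟩

/-- Let `K` be a finite field of characteristic three with `q` elements and let `W n` be the number
of the Wilson primes of degree `n` of `K[t]`.  Then `W n` is asymptotic to `q ^ (n - n / 3) / n` as
`n` tends to infinity through the integers congruent to `0` or `1` modulo `3`, and `W n = 0` if `n`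
is congruent to `2` modulo `3`. -/
theorem result (K : Type) [Field K] [Fintype K] [CharP K 3] :
    Tendsto (fun m : ℕ => ((3 * m : ℕ) : ℝ) * (W K (3 * m) : ℝ) /
      (Fintype.card K : ℝ) ^ (2 * m)) atTop (𝓝 1) ∧
    Tendsto (fun m : ℕ => ((3 * m + 1 : ℕ) : ℝ) * (W K (3 * m + 1) : ℝ) /
      (Fintype.card K : ℝ) ^ (2 * m + 1)) atTop (𝓝 1) ∧
    ∀ m : ℕ, W K (3 * m + 2) = 0 := by
  obtain ⟨h1, h2⟩ := Pool.Agent.H6.W.s_main K
  refine ⟨?_, ?_, ?_⟩
  · rw [Metric.tendsto_atTop]
    intro ε hε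
    obtain ⟨n₀, hn₀⟩ := h1 (ε / 2) (by positivity)
    refine ⟨n₀ + 1, fun m hm => ?_⟩
    have h := hn₀ (3 * m) (by omega) (by omega)
    rw [← W_eq K (3 * m)] at h
    have hnu : Pool.Agent.H6.W.nu (3 * m) = 2 * m := by
      unfold Pool.Agent.H6.W.nu
      omega
    rw [hnu] at h
    rw [Real.dist_eq]
    linarith
  · rw [Metric.tendsto_atTop]
    intro ε hε
    obtain ⟨n₀, hn₀⟩ := h1 (ε / 2) (by positivity)
    refine ⟨n₀ + 1, fun m hm => ?_⟩
    have h := hn₀ (3 * m + 1) (by omega) (by omega)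
    rw [← W_eq K (3 * m + 1)] at h
    have hnu : Pool.Agent.H6.W.nu (3 * m + 1) = 2 * m + 1 := by
      unfold Pool.Agent.H6.W.nu
      omega
    rw [hnu] at h
    rw [Real.dist_eq]
    linarith
  · intro m
    rw [W_eq K (3 * m + 2)]
    exact h2 (3 * m + 2) (by omega)

end Pool.Agent.Results.MP_de5eaa_nt.WilsonPrimesCharThree
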