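import Mathlib
import Pool.Agent.H440.WI.Crit
import Pool.Agent.H440.WI.Count
import Pool.Agent.H440.WI.Quartic

/-!
# The Wilson primes of `F_q[t]`, `q` even: their degrees and their exact number
-/

namespace Pool.Agent.Results.MP_de5eaa_nt.WilsonPrimesExactCounts

open Polynomial

theorem result (K : Type) [Field K] [Fintype K] (κ : ℕ) (hκ : Fintype.card K = 2 ^ κ)
    -- `W N` is the number of Wilson primes of degree `N`
    (W : ℕ → ℕ) (hW : ∀ N : ℕ, W N = {P : K[X] | P.Monic ∧ Irreducible P ∧ P.natDegree = N ∧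
      P ^ 2 ∣ (∏ᶠ a ∈ {a : K[X] | a ≠ 0 ∧ a.natDegree < P.natDegree}, a) + 1}.ncard) :
    -- the Wilson primes are the primes `x ^ 4 + t y ^ 4`
    (∀ P : K[X], P.Monic → Irreducible P →
      (P ^ 2 ∣ (∏ᶠ a ∈ {a : K[X] | a ≠ 0 ∧ a.natDegree < P.natDegree}, a) + 1 ↔
        ∃ x y : K[X], P = x ^ 4 + X * y ^ 4)) ∧
    -- the degrees of the Wilson primes
    (∀ N : ℕ, 0 < W N → (N % 4 = 1 ∧ Even (κ * (N / 4))) ∨ (N % 4 = 0 ∧ Odd (κ * (N / 4)))) ∧
    (∀ N : ℕ, 150 ≤ N →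
      (N % 4 = 1 ∧ Even (κ * (N / 4))) ∨ (N % 4 = 0 ∧ Odd (κ * (N / 4))) → 0 < W N) ∧
    -- the exact number of Wilson primes of degree `N = 4 n + 1`
    (∀ N : ℕ, N % 4 = 1 →
      ∑ f ∈ N.divisors with f % 4 = 1, (f : ℤ) * (W f : ℤ) *
          ∑ d ∈ (N / f).divisors, jacobiSym (-(2 : ℤ) ^ κ) d *
            ((2 : ℤ) ^ κ) ^ (f * ((d - 1) * (N / f / d - 1) / 4)) =
        ∑ d ∈ N.divisors, jacobiSym (-(2 : ℤ) ^ κ) d *
          ((2 : ℤ) ^ κ) ^ ((d + 1) * (N / d + 1) / 4)) ∧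
    -- the exact number of Wilson primes of degree `4 n`
    (∀ n : ℕ, Odd (κ * n) →
      ∑ m ∈ n.divisors with n / m % 4 = 1, (4 * m : ℤ) * (W (4 * m) : ℤ) *
          ∑ d ∈ (n / m).divisors, jacobiSym (-1) d *
            ((2 : ℤ) ^ κ) ^ (m * ((d - 1) * (n / m / d - 1))) =
        2 * ((2 : ℤ) ^ κ) ^ n *
          ∑ c ∈ n.divisors, jacobiSym (-1) (n / c) * (((2 : ℤ) ^ κ) ^ c - 1)) ∧
    -- the asymptotic formula, with a power saving error term
    (∀ n : ℕ, Even (κ * n) →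
      |((4 * n + 1) * W (4 * n + 1) : ℝ) - 2 * (2 ^ κ) ^ (2 * n + 1)| ≤
        2 * (4 * n + 1) ^ 3 * (2 ^ κ) ^ ((4 * n + 4) / 3)) ∧
    (∀ n : ℕ, Odd (κ * n) →
      |(4 * n * W (4 * n) : ℝ) - 2 * (2 ^ κ) ^ (2 * n)| ≤
        2 * (4 * n) ^ 3 * (2 ^ κ) ^ ((4 * n + 3) / 3)) ∧
    -- prime degrees
    (∀ n : ℕ, Even (κ * n) → (4 * n + 1).Prime →
      (4 * n + 1) * W (4 * n + 1) + 2 * 2 ^ κ = 2 * (2 ^ κ) ^ (2 * n + 1)) := by
  classical
  have hchar : CharP K 2 := by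
    obtain ⟨p, hp⟩ := CharP.exists K
    obtain ⟨m, hpp, hm⟩ := FiniteField.card K p
    rw [hκ] at hm
    have h1 : p ∣ 2 ^ κ := by
      rw [hm]
      exact dvd_pow_self p m.ne_zero
    have h2 : p = 2 := (Nat.prime_dvd_prime_iff_eq hpp Nat.prime_two).1 (hpp.dvd_of_dvd_pow h1)
    rw [h2] at hp
    exact hp
  have hκ1 : 1 ≤ κ := by
    rcases Nat.eq_zero_or_pos κ with h0 | h0
    · exfalso
      rw [h0, pow_zero] at hκ
      have := Fintype.one_lt_card (α := K)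
      omega
    · exact h0
  have hq2 : (2 : ℝ) ≤ 2 ^ κ := by
    calc (2 : ℝ) = 2 ^ 1 := (pow_one _).symm
      _ ≤ 2 ^ κ := pow_le_pow_right₀ (by norm_num) hκ1
  obtain ⟨q1, -, -, -, -, -, -, -, -⟩ := Pool.Agent.H440.WI.quartic K κ hκ _ (fun N => rfl)
  have hcrit : ∀ P : K[X], P.Monic → Irreducible P →
      (P ^ 2 ∣ (∏ᶠ a ∈ {a : K[X] | a ≠ 0 ∧ a.natDegree < P.natDegree}, a) + 1 ↔
        ∃ x y : K[X], P = x ^ 4 + X * y ^ 4) := by
    intro P hm hP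
    rw [Pool.Agent.H440.WI.wilson_iff P hP hm, Pool.Agent.H440.WI.hasse_two, ← q1 P]
  have hW2 : ∀ N : ℕ, W N = {f : K[X] | f.Monic ∧ Irreducible f ∧ f.natDegree = N ∧
      ∃ x y : K[X], f = x ^ 4 + X * y ^ 4}.ncard := by
    intro N
    rw [hW]
    congr 1
    ext P
    constructor
    · rintro ⟨h1, h2, h3, h4⟩
      exact ⟨h1, h2, h3, (hcrit P h1 h2).1 h4⟩
    · rintro ⟨h1, h2, h3, h4⟩
      exact ⟨h1, h2, h3, (hcrit P h1 h2).2 h4⟩
  obtain ⟨-, p2, p3, p4, p5, p6, p7, p8, p9⟩ := Pool.Agent.H440.WI.quartic K κ hκ W hW2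
  refine ⟨hcrit, fun N hN => ?_, fun N hN h => ?_, p5, p6, p7, p8, p9⟩
  · have h1 : N % 4 < 2 := by
      by_contra h
      rw [p2 N (by omega)] at hN
      exact lt_irrefl _ hN
    obtain ⟨n, hn⟩ : ∃ n, N = 4 * n ∨ N = 4 * n + 1 := ⟨N / 4, by omega⟩
    rcases hn with rfl | rfl
    · right
      refine ⟨by omega, ?_⟩
      rw [show 4 * n / 4 = n by omega]
      by_contra h
      rw [p4 n (Nat.not_odd_iff_even.1 h)] at hN
      exact lt_irrefl _ hN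
    · left
      refine ⟨by omega, ?_⟩
      rw [show (4 * n + 1) / 4 = n by omega]
      by_contra h
      rw [p3 n (Nat.not_even_iff_odd.1 h)] at hN
      exact lt_irrefl _ hN
  · rw [Nat.pos_iff_ne_zero]
    intro h0
    rcases h with ⟨h1, h2⟩ | ⟨h1, h2⟩
    · obtain ⟨n, rfl⟩ : ∃ n, N = 4 * n + 1 := ⟨N / 4, by omega⟩
      rw [show (4 * n + 1) / 4 = n by omega] at h2
      have h3 := p7 n h2
      rw [h0, Nat.cast_zero, mul_zero, zero_sub, abs_neg,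
        abs_of_nonneg (by positivity)] at h3
      have h4 := Pool.Agent.H440.WI.main_gt (2 ^ κ) hq2 (4 * n + 1) ((4 * n + 4) / 3) (2 * n + 1)
        (by omega) (by omega) (by omega)
      push_cast at h4
      exact absurd h3 (not_le.2 h4)
    · obtain ⟨n, rfl⟩ : ∃ n, N = 4 * n := ⟨N / 4, by omega⟩
      rw [show 4 * n / 4 = n by omega] at h2
      have h3 := p8 n h2
      rw [h0, Nat.cast_zero, mul_zero, zero_sub, abs_neg,
        abs_of_nonneg (by positivity)] at h3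
      have h4 := Pool.Agent.H440.WI.main_gt (2 ^ κ) hq2 (4 * n) ((4 * n + 3) / 3) (2 * n)
        (by omega) (by omega) (by omega)
      push_cast at h4
      exact absurd h3 (not_le.2 h4)

end Pool.Agent.Results.MP_de5eaa_nt.WilsonPrimesExactCounts
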